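import Pool.Agent.Helper79.DipMain

set_option autoImplicit false

namespace Pool.Agent.Results.MP_db33a0_lc.ContinuumManyDIP

open Pool.Agent.Helper79.Dip

/-- There are exactly continuum many (in particular uncountably many) axiomatic extensions of
FL_ew with the deductive interpolation property. -/
theorem result :
    Cardinal.mk {L : Set Fm → Fm → Prop // IsAxiomaticExtension L ∧ DIP L} =
      Cardinal.continuum :=
  Pool.Agent.Helper79.Dip.main

end Pool.Agent.Results.MP_db33a0_lc.ContinuumManyDIP
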